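import Mathlib
import Pool.Agent.H.MP_c6a9e6_pr.Defs
import Pool.Agent.H.MP_c6a9e6_pr.Prob

/-!
# Linear relaxation of the `α`-asynchronous elementary rule 210

For every `α` strictly between `0` and `1` the relaxation time `R_α(n)` on the ring with `n` cells
is at most `C n`, with `C` depending only on `α`.

Idea of the proof. In the frame moving with speed one, cell `i` depends only on the cells
`i, i + 1, i + 2`.  Reading a configuration from right to left and cutting it into blocks `1` and
`(v, 0)`, the synchronous rule keeps the block structure; so the number of blocks `(v, 0)`, that is
the sum over the runs of zeros of half their length rounded up, is conserved by it.  Corrections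
depending on this parse and on four consecutive cells give a functional with strictly negative
drift, for every `α`, away from the configurations with at most four ones, where a second,
rapidly decreasing function of the number of ones takes over.
-/

namespace Pool.Agent.Results.MP_c6a9e6_pr.LinearRelaxation

open Pool.Agent.H.MP_c6a9e6_pr
open scoped unitInterval

/-- **Main theorem.** For every `α` with `0 < α < 1` there is a constant `C` such that
`R_α(n) ≤ C n` for every `n ≥ 3`. -/
theorem result (α : I) (h0 : 0 < α) (h1 : α < 1) :
    ∃ C : ℝ, ∀ n : ℕ, 3 ≤ n → relaxationTime α n ≤ ENNReal.ofReal (C * n) :=
  relaxation_linear α h0 h1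

end Pool.Agent.Results.MP_c6a9e6_pr.LinearRelaxation
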